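import Pool.Agent.Helper805.RA.Ext
set_option autoImplicit false

/-! MP_eeb5e9_al: right alternative rings and algebras of characteristic 2. -/

namespace Pool.Agent.Results.MP_eeb5e9_al.CharTwo
open Pool.Agent.Helper805.RA

/-- Let `Φ` be a commutative ring (for example `ℤ`).

* Every right alternative `Φ`-algebra `A` with `2A = 0` satisfies all identities of the free right alternative
  `Φ`-algebra on one generator; so it belongs to the variety generated by the free right alternative `Φ`-algebra on
  `n` generators, for every `n ≥ 1`.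
* If `2 = 0` in `Φ`, then for every `n ≥ 1` the variety generated by the free right alternative `Φ`-algebra on `n`
  generators consists of all right alternative `Φ`-algebras: the chain of these varieties is constant. -/
theorem result (Φ : Type) [CommRing Φ] :
    (∀ (A : Type) [NonUnitalNonAssocRing A] [Module Φ A] [IsScalarTower Φ A A] [SMulCommClass Φ A A],
      IsRA A → (∀ a : A, a + a = 0) → ∀ n : ℕ, 1 ≤ n → InRA Φ n A) ∧
    ((2 : Φ) = 0 → ∀ n : ℕ, 1 ≤ n →
      ∀ (A : Type) [NonUnitalNonAssocRing A] [Module Φ A] [IsScalarTower Φ A A] [SMulCommClass Φ A A],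
        InRA Φ n A ↔ IsRA A) := by
  refine ⟨?_, ?_⟩
  · intro A _ _ _ _ hA h2 n hn
    exact InRA_mono hn A (inRA_one hA h2)
  · intro hΦ n hn A _ _ _ _
    refine ⟨isRA_of_InRA A, fun hA => InRA_mono hn A (inRA_one hA ?_)⟩
    intro a
    rw [← two_smul Φ a, hΦ, zero_smul]

end Pool.Agent.Results.MP_eeb5e9_al.CharTwo
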